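import Mathlib

/-!
# Squares in a finite field in which -1 is not a square

`Sq x`: `x` is a nonzero square. `nb k`: the `s` with `s` and `k - s` nonzero squares. If `-1` is not a square and `k ≠ 0`,
then `4 |nb k| = q + 1` or `q - 3`. `conn`: the graph on the nonzero squares different from `1`, `s ~ t` if `1 - s - t` is a
nonzero square, is connected.
-/

set_option autoImplicit false

namespace Pool.Agent.Helper52.PL

open Finset

variable {F : Type*} [Field F]

/-- nonzero squares -/
def Sq (x : F) : Prop := x ≠ 0 ∧ IsSquare x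

theorem Sq.exists_root {x : F} (h : Sq x) : ∃ y : F, y ≠ 0 ∧ y * y = x := by
  obtain ⟨h0, y, hy⟩ := h
  exact ⟨y, fun h => h0 (by rw [hy, h, mul_zero]), hy.symm⟩

theorem sq_self {y : F} (h : y ≠ 0) : Sq (y * y) := ⟨mul_ne_zero h h, y, rfl⟩

theorem Sq.mul {x y : F} (hx : Sq x) (hy : Sq y) : Sq (x * y) := ⟨mul_ne_zero hx.1 hy.1, hx.2.mul hy.2⟩

theorem sq_one : Sq (1 : F) := ⟨one_ne_zero, IsSquare.one⟩

variable [Fintype F] [DecidableEq F]

/-- twice the indicator function of the nonzero squares -/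
theorem ind_eq (s : F) [Decidable (Sq s)] :
    quadraticChar F s ^ 2 + quadraticChar F s = if Sq s then 2 else 0 := by
  by_cases h0 : s = 0
  · subst h0
    rw [if_neg (fun h => h.1 rfl)]
    simp
  · by_cases h : IsSquare s
    · rw [if_pos ⟨h0, h⟩, (quadraticChar_one_iff_isSquare h0).2 h]
      norm_num
    · rw [if_neg (fun h' => h h'.2), quadraticChar_neg_one_iff_not_isSquare.2 h]
      norm_num

omit [DecidableEq F] in
theorem char_ne_two (hm : ¬IsSquare (-1 : F)) : ringChar F ≠ 2 := by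
  intro h
  exact hm (FiniteField.isSquare_of_char_two h _)

omit [DecidableEq F] in
theorem two_ne (hm : ¬IsSquare (-1 : F)) : (2 : F) ≠ 0 := Ring.two_ne_zero (char_ne_two hm)

/-- squares and their negatives -/
theorem sq_neg (hm : ¬IsSquare (-1 : F)) {x : F} (hx : x ≠ 0) : Sq (-x) ↔ ¬Sq x := by
  classical
  have h1 : quadraticChar F (-x) = -quadraticChar F x := by
    rw [neg_eq_neg_one_mul, map_mul, quadraticChar_neg_one_iff_not_isSquare.2 hm]
    ring
  have h2 : Sq (-x) ↔ quadraticChar F (-x) = 1 := by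
    rw [quadraticChar_one_iff_isSquare (neg_ne_zero.2 hx)]
    exact ⟨fun h => h.2, fun h => ⟨neg_ne_zero.2 hx, h⟩⟩
  have h3 : Sq x ↔ quadraticChar F x = 1 := by
    rw [quadraticChar_one_iff_isSquare hx]
    exact ⟨fun h => h.2, fun h => ⟨hx, h⟩⟩
  rw [h2, h3, h1]
  rcases quadraticChar_dichotomy hx with h | h <;> rw [h] <;> norm_num

theorem sum_char_mul (hm : ¬IsSquare (-1 : F)) {k : F} (hk : k ≠ 0) :
    ∑ s : F, quadraticChar F s * quadraticChar F (k - s) = 1 := by
  have h1 : jacobiSum (quadraticChar F) (quadraticChar F) = 1 := by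
    have h2 := jacobiSum_nontrivial_inv (quadraticChar_ne_one (char_ne_two hm))
    rw [(quadraticChar_isQuadratic F).inv] at h2
    rw [h2, quadraticChar_neg_one_iff_not_isSquare.2 hm]
    norm_num
  rw [← h1, jacobiSum]
  have h3 : ∀ s : F, quadraticChar F (k * s) * quadraticChar F (k - k * s) =
      quadraticChar F s * quadraticChar F (1 - s) := by
    intro s
    have e1 : k - k * s = k * (1 - s) := by ring
    rw [e1, map_mul, map_mul]
    have e2 := quadraticChar_sq_one hk
    linear_combination (quadraticChar F s * quadraticChar F (1 - s)) * e2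
  rw [← Finset.sum_congr rfl fun s _ => h3 s]
  exact (Equiv.sum_comp (Equiv.mulLeft₀ k hk) (fun s => quadraticChar F s * quadraticChar F (k - s))).symm

open scoped Classical in
/-- the number of ways to write `k` as a sum of two nonzero squares -/
noncomputable def nb (k : F) : Finset F := univ.filter fun s => Sq s ∧ Sq (k - s)

omit [DecidableEq F] in
theorem mem_nb {k s : F} : s ∈ nb k ↔ Sq s ∧ Sq (k - s) := by
  classical
  unfold nb
  simp

theorem card_nb (hm : ¬IsSquare (-1 : F)) {k : F} (hk : k ≠ 0) :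
    (4 * ((nb k).card : ℤ)) = Fintype.card F - 1 - 2 * quadraticChar F k := by
  classical
  have h1 : (4 * ((nb k).card : ℤ)) = ∑ s : F, (quadraticChar F s ^ 2 + quadraticChar F s) *
      (quadraticChar F (k - s) ^ 2 + quadraticChar F (k - s)) := by
    have e1 : ∀ s : F, (quadraticChar F s ^ 2 + quadraticChar F s) *
        (quadraticChar F (k - s) ^ 2 + quadraticChar F (k - s)) = if s ∈ nb k then (4 : ℤ) else 0 := by
      intro s
      rw [ind_eq, ind_eq]
      by_cases h : s ∈ nb k
      · have := mem_nb.1 h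
        rw [if_pos h, if_pos this.1, if_pos this.2]
        norm_num
      · rw [if_neg h]
        rcases not_and_or.1 (fun h' => h (mem_nb.2 h')) with h' | h'
        · rw [if_neg h', zero_mul]
        · rw [if_neg h', mul_zero]
    rw [Finset.sum_congr rfl fun s _ => e1 s, ← Finset.sum_filter, Finset.sum_const, nsmul_eq_mul,
      Finset.filter_univ_mem]
    ring
  have h2 : ∑ s : F, quadraticChar F s ^ 2 * quadraticChar F (k - s) = -quadraticChar F k := by
    have e1 : ∀ s : F, quadraticChar F s ^ 2 * quadraticChar F (k - s) =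
        quadraticChar F (k - s) - (if s = 0 then quadraticChar F k else 0) := by
      intro s
      by_cases h0 : s = 0
      · subst h0
        simp
      · rw [quadraticChar_sq_one h0, if_neg h0]
        ring
    rw [Finset.sum_congr rfl fun s _ => e1 s, Finset.sum_sub_distrib,
      Finset.sum_ite_eq' univ (0 : F) (fun _ => quadraticChar F k), if_pos (mem_univ _)]
    have e2 : ∑ s : F, quadraticChar F (k - s) = 0 := by
      rw [← quadraticChar_sum_zero (char_ne_two hm)]
      exact Equiv.sum_comp (Equiv.subLeft k) (fun s => quadraticChar F s)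
    rw [e2, zero_sub]
  have h3 : ∑ s : F, quadraticChar F s * quadraticChar F (k - s) ^ 2 = -quadraticChar F k := by
    rw [← h2]
    have := Equiv.sum_comp (Equiv.subLeft k)
      (fun s => quadraticChar F s ^ 2 * quadraticChar F (k - s))
    rw [← this]
    refine Finset.sum_congr rfl fun s _ => ?_
    simp only [Equiv.subLeft_apply, sub_sub_cancel]
    ring
  have h4 : ∑ s : F, quadraticChar F s ^ 2 * quadraticChar F (k - s) ^ 2 = (Fintype.card F : ℤ) - 2 := by
    have e1 : ∀ s : F, quadraticChar F s ^ 2 * quadraticChar F (k - s) ^ 2 =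
        1 - (if s = 0 then 1 else 0) - (if s = k then 1 else 0) := by
      intro s
      by_cases h0 : s = 0
      · subst h0
        rw [if_pos rfl, if_neg (Ne.symm hk)]
        simp
      · by_cases h1 : s = k
        · subst h1
          rw [if_neg h0, if_pos rfl]
          simp
        · rw [quadraticChar_sq_one h0, quadraticChar_sq_one (sub_ne_zero.2 (Ne.symm h1)), if_neg h0,
            if_neg h1]
          ring
    rw [Finset.sum_congr rfl fun s _ => e1 s, Finset.sum_sub_distrib, Finset.sum_sub_distrib,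
      Finset.sum_ite_eq' univ (0 : F) (fun _ => (1 : ℤ)), Finset.sum_ite_eq' univ k (fun _ => (1 : ℤ)),
      if_pos (mem_univ _), if_pos (mem_univ _), Finset.sum_const, Finset.card_univ, nsmul_eq_mul]
    ring
  have h5 : ∀ s : F, (quadraticChar F s ^ 2 + quadraticChar F s) *
      (quadraticChar F (k - s) ^ 2 + quadraticChar F (k - s)) =
      quadraticChar F s ^ 2 * quadraticChar F (k - s) ^ 2 + quadraticChar F s ^ 2 * quadraticChar F (k - s)
      + quadraticChar F s * quadraticChar F (k - s) ^ 2 + quadraticChar F s * quadraticChar F (k - s) := by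
    intro s
    ring
  rw [h1, Finset.sum_congr rfl fun s _ => h5 s, Finset.sum_add_distrib, Finset.sum_add_distrib,
    Finset.sum_add_distrib, h2, h3, h4, sum_char_mul hm hk]
  ring

theorem card_nb_sq (hm : ¬IsSquare (-1 : F)) {k : F} (hk : Sq k) :
    4 * (nb k).card + 3 = Fintype.card F := by
  have h1 := card_nb hm hk.1
  rw [(quadraticChar_one_iff_isSquare hk.1).2 hk.2] at h1
  zify
  linarith

theorem card_nb_not (hm : ¬IsSquare (-1 : F)) {k : F} (hk : k ≠ 0) (hs : ¬Sq k) :
    4 * (nb k).card = Fintype.card F + 1 := by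
  have h1 := card_nb hm hk
  rw [quadraticChar_neg_one_iff_not_isSquare.2 (fun h => hs ⟨hk, h⟩)] at h1
  zify
  linarith

open scoped Classical in
/-- nonzero squares different from `1` -/
noncomputable def sqs (F : Type*) [Field F] [Fintype F] : Finset F := univ.filter fun s => Sq s ∧ s ≠ 1

omit [DecidableEq F] in
theorem mem_sqs {s : F} : s ∈ sqs F ↔ Sq s ∧ s ≠ 1 := by
  classical
  unfold sqs
  simp

theorem card_sqs (hm : ¬IsSquare (-1 : F)) : 2 * (sqs F).card + 3 = Fintype.card F := by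
  classical
  have h1 : ∑ s : F, (quadraticChar F s ^ 2 + quadraticChar F s) = (Fintype.card F : ℤ) - 1 := by
    rw [Finset.sum_add_distrib, quadraticChar_sum_zero (char_ne_two hm), add_zero]
    have e1 : ∀ s : F, quadraticChar F s ^ 2 = 1 - (if s = 0 then 1 else 0) := by
      intro s
      by_cases h0 : s = 0
      · subst h0
        simp
      · rw [quadraticChar_sq_one h0, if_neg h0, sub_zero]
    rw [Finset.sum_congr rfl fun s _ => e1 s, Finset.sum_sub_distrib,
      Finset.sum_ite_eq' univ (0 : F) (fun _ => (1 : ℤ)), if_pos (mem_univ _), Finset.sum_const,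
      Finset.card_univ, nsmul_eq_mul]
    ring
  have h2 : ∑ s : F, (quadraticChar F s ^ 2 + quadraticChar F s) = 2 * ((univ.filter fun s : F => Sq s).card : ℤ) := by
    rw [Finset.sum_congr rfl fun s _ => ind_eq s, ← Finset.sum_filter, Finset.sum_const, nsmul_eq_mul]
    ring
  have h3 : (univ.filter fun s : F => Sq s) = insert 1 (sqs F) := by
    ext s
    simp only [mem_filter, mem_univ, true_and, mem_insert, mem_sqs]
    constructor
    · intro h
      by_cases h1 : s = 1
      · exact Or.inl h1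
      · exact Or.inr ⟨h, h1⟩
    · rintro (h | h)
      · rw [h]
        exact sq_one
      · exact h.1
  have h4 : (1 : F) ∉ sqs F := fun h => (mem_sqs.1 h).2 rfl
  rw [h3, card_insert_of_notMem h4] at h2
  push_cast at h2
  zify
  linarith

/-- neighbours are in the vertex set -/
theorem nb_sub (hm : ¬IsSquare (-1 : F)) {t : F} (ht : Sq t) : nb (1 - t) ⊆ sqs F := by
  intro s hs
  obtain ⟨h1, h2⟩ := mem_nb.1 hs
  refine mem_sqs.2 ⟨h1, fun h => ?_⟩
  subst h
  have : (1 : F) - t - 1 = -t := by ring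
  rw [this, sq_neg hm ht.1] at h2
  exact h2 ht

/-- vertices of the second type exist -/
theorem exists_second (hm : ¬IsSquare (-1 : F)) (hq : 3 < Fintype.card F) :
    ∃ z ∈ sqs F, ¬Sq (1 - z) := by
  by_contra hcon
  push Not at hcon
  have h1 : sqs F ⊆ nb (1 : F) := by
    intro s hs
    exact mem_nb.2 ⟨(mem_sqs.1 hs).1, hcon s hs⟩
  have h2 := card_le_card h1
  have h3 := card_nb_sq hm (sq_one (F := F))
  have h4 := card_sqs hm
  omega

/-- The graph of squares is connected. -/
theorem conn (hm : ¬IsSquare (-1 : F)) (hq : 3 < Fintype.card F) {P : F → Prop}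
    (hne : ∃ s ∈ sqs F, P s) (hcl : ∀ s ∈ sqs F, P s → ∀ t ∈ sqs F, Sq (1 - s - t) → P t) :
    ∀ t ∈ sqs F, P t := by
  classical
  by_contra hcon
  push Not at hcon
  obtain ⟨t0, ht0, hPt0⟩ := hcon
  obtain ⟨s0, hs0, hPs0⟩ := hne
  set S := (sqs F).filter P with hS
  set T := (sqs F).filter (fun s => ¬P s) with hT
  have hST : S.card + T.card = (sqs F).card := by
    rw [hS, hT]
    exact card_filter_add_card_filter_not (s := sqs F) P
  have hcard : ∀ s ∈ sqs F, 4 * (nb (1 - s)).card + 3 = Fintype.card F ∨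
      (¬Sq (1 - s) ∧ 4 * (nb (1 - s)).card = Fintype.card F + 1) := by
    intro s hs
    have h0 : (1 : F) - s ≠ 0 := sub_ne_zero.2 (Ne.symm (mem_sqs.1 hs).2)
    by_cases h : Sq (1 - s)
    · exact Or.inl (card_nb_sq hm h)
    · exact Or.inr ⟨h, card_nb_not hm h0 h⟩
  have hge : ∀ s ∈ sqs F, Fintype.card F ≤ 4 * (nb (1 - s)).card + 3 := by
    intro s hs
    rcases hcard s hs with h | h
    · omega
    · omega
  have hsubS : ∀ s ∈ S, nb (1 - s) ⊆ S := by
    intro s hs t ht
    obtain ⟨hs1, hs2⟩ := mem_filter.1 hs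
    have ht1 := nb_sub hm (mem_sqs.1 hs1).1 ht
    exact mem_filter.2 ⟨ht1, hcl s hs1 hs2 t ht1 (mem_nb.1 ht).2⟩
  have hsubT : ∀ s ∈ T, nb (1 - s) ⊆ T := by
    intro s hs t ht
    obtain ⟨hs1, hs2⟩ := mem_filter.1 hs
    have ht1 := nb_sub hm (mem_sqs.1 hs1).1 ht
    refine mem_filter.2 ⟨ht1, fun hPt => hs2 (hcl t ht1 hPt s hs1 ?_)⟩
    have := (mem_nb.1 ht).2
    rwa [sub_right_comm] at this
  have h1 := card_le_card (hsubS s0 (mem_filter.2 ⟨hs0, hPs0⟩))
  have h2 := card_le_card (hsubT t0 (mem_filter.2 ⟨ht0, hPt0⟩))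
  have h3 := hge s0 hs0
  have h4 := hge t0 ht0
  have h5 := card_sqs hm
  obtain ⟨z, hz, hz2⟩ := exists_second hm hq
  have h6 : 4 * (nb (1 - z)).card = Fintype.card F + 1 := by
    rcases hcard z hz with h | h
    · exfalso
      have h0 : (1 : F) - z ≠ 0 := sub_ne_zero.2 (Ne.symm (mem_sqs.1 hz).2)
      have := card_nb_not hm h0 hz2
      omega
    · exact h.2
  by_cases hzP : P z
  · have := card_le_card (hsubS z (mem_filter.2 ⟨hz, hzP⟩))
    omega
  · have := card_le_card (hsubT z (mem_filter.2 ⟨hz, hzP⟩))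
    omega

/-- an element of the first type or its complement has a neighbour of the first type different from itself -/
theorem exists_pair (hm : ¬IsSquare (-1 : F)) (hq : 15 ≤ Fintype.card F) {s : F} (hs : s ∈ nb (1 : F)) :
    ∃ s1 s2 : F, (s1 = s ∨ s1 = 1 - s) ∧ s1 ∈ nb (1 : F) ∧ s2 ∈ nb (1 : F) ∧ s2 ≠ s1 ∧ Sq (1 - s1 - s2) := by
  have h3 := card_nb_sq hm (sq_one (F := F))
  have hcom : ∀ t ∈ nb (1 : F), 1 - t ∈ nb (1 : F) := by
    intro t ht
    obtain ⟨h1, h2⟩ := mem_nb.1 ht
    exact mem_nb.2 ⟨h2, by rwa [sub_sub_cancel]⟩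
  have h4 : (((nb (1 : F)).erase s).erase (1 - s)).Nonempty := by
    rw [← card_pos]
    have e1 := pred_card_le_card_erase (s := nb (1 : F)) (a := s)
    have e2 := pred_card_le_card_erase (s := (nb (1 : F)).erase s) (a := 1 - s)
    omega
  obtain ⟨r, hr⟩ := h4
  obtain ⟨hr1, hr2⟩ := mem_erase.1 hr
  obtain ⟨hr3, hr4⟩ := mem_erase.1 hr2
  have h0 : (1 : F) - s - r ≠ 0 := by
    intro h
    apply hr1
    linear_combination -h
  by_cases h : Sq (1 - s - r)
  · exact ⟨s, r, Or.inl rfl, hs, hr4, hr3, h⟩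
  · refine ⟨1 - s, 1 - r, Or.inr rfl, hcom s hs, hcom r hr4, fun h' => hr3 ?_, ?_⟩
    · linear_combination -h'
    · have e1 : (1 : F) - (1 - s) - (1 - r) = -(1 - s - r) := by ring
      rw [e1, sq_neg hm h0]
      exact h

/-- elements of the first type have a neighbour of the second type -/
theorem exists_second_nb (hm : ¬IsSquare (-1 : F)) {t : F} (ht : t ∈ nb (1 : F)) :
    ∃ z ∈ sqs F, ¬Sq (1 - z) ∧ Sq (1 - t - z) := by
  by_contra hcon
  push Not at hcon
  obtain ⟨ht1, ht2⟩ := mem_nb.1 ht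
  have h1 : nb (1 - t) ⊆ (nb (1 : F)).erase (1 - t) := by
    intro z hz
    have hz1 := nb_sub hm ht1 hz
    obtain ⟨hz2, hz3⟩ := mem_nb.1 hz
    refine mem_erase.2 ⟨fun h => ?_, mem_nb.2 ⟨hz2, ?_⟩⟩
    · rw [h, sub_self] at hz3
      exact hz3.1 rfl
    · by_contra h
      exact hcon z hz1 h hz3
  have h2 := card_le_card h1
  have hmem : (1 : F) - t ∈ nb (1 : F) := mem_nb.2 ⟨ht2, by rwa [sub_sub_cancel]⟩
  rw [card_erase_of_mem hmem] at h2
  have h3 := card_nb_sq hm (sq_one (F := F))
  have h4 := card_nb_sq hm ht2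
  have h5 : 0 < (nb (1 : F)).card := card_pos.2 ⟨_, hmem⟩
  omega

/-- a good height: all its neighbours of the second type have another neighbour of the first type -/
theorem exists_good (hm : ¬IsSquare (-1 : F)) (hq : 11 ≤ Fintype.card F) :
    ∃ t ∈ nb (1 : F), ∀ z ∈ sqs F, ¬Sq (1 - z) → Sq (1 - t - z) → ∃ t' ∈ nb (1 : F), t' ≠ t ∧ Sq (1 - t' - z) := by
  classical
  by_contra hcon
  push Not at hcon
  choose! f hf1 hf2 hf3 hf4 using hcon
  have hA := card_nb_sq hm (sq_one (F := F))
  have hV := card_sqs hm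
  have hcom : ∀ t ∈ nb (1 : F), 1 - t ∈ nb (1 : F) := by
    intro t ht
    obtain ⟨h1, h2⟩ := mem_nb.1 ht
    exact mem_nb.2 ⟨h2, by rwa [sub_sub_cancel]⟩
  have hsub : nb (1 : F) ⊆ sqs F := by
    intro s hs
    obtain ⟨h1, h2⟩ := mem_nb.1 hs
    exact mem_sqs.2 ⟨h1, fun h => h2.1 (by rw [h, sub_self])⟩
  have hB : (sqs F \ nb (1 : F)).card = (nb (1 : F)).card := by
    rw [card_sdiff_of_subset hsub]
    omega
  have hmapsto : ∀ t ∈ nb (1 : F), f t ∈ sqs F \ nb (1 : F) := by
    intro t ht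
    exact mem_sdiff.2 ⟨hf1 t ht, fun h => hf2 t ht (mem_nb.1 h).2⟩
  have hinj : ∀ t ∈ nb (1 : F), ∀ t' ∈ nb (1 : F), f t = f t' → t' = t := by
    intro t ht t' ht' h
    by_contra hne
    apply hf4 t ht t' ht' hne
    rw [h]
    exact hf3 t' ht'
  have himg : (nb (1 : F)).image f = sqs F \ nb (1 : F) := by
    apply eq_of_subset_of_card_le
    · intro z hz
      obtain ⟨t, ht, rfl⟩ := mem_image.1 hz
      exact hmapsto t ht
    · rw [hB, card_image_of_injOn]
      intro t ht t' ht' h
      exact (hinj t ht t' ht' h).symm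
  have hsecond : ∀ t ∈ nb (1 : F), ∀ z ∈ sqs F, ¬Sq (1 - z) → Sq (1 - t - z) → z = f t := by
    intro t ht z hz hz1 hz2
    have hz3 : z ∈ (nb (1 : F)).image f := by
      rw [himg]
      exact mem_sdiff.2 ⟨hz, fun h => hz1 (mem_nb.1 h).2⟩
    obtain ⟨t', ht', rfl⟩ := mem_image.1 hz3
    by_cases h : t = t'
    · rw [h]
    · exact absurd hz2 (hf4 t' ht' t ht h)
  have hall : ∀ t ∈ nb (1 : F), ∀ t' ∈ nb (1 : F), t' ≠ 1 - t → Sq (1 - t - t') := by
    intro t ht
    obtain ⟨ht1, ht2⟩ := mem_nb.1 ht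
    have h1 : nb (1 - t) ⊆ insert (f t) ((nb (1 - t)).filter (fun z => z ∈ nb (1 : F))) := by
      intro z hz
      by_cases h : z ∈ nb (1 : F)
      · exact mem_insert_of_mem (mem_filter.2 ⟨hz, h⟩)
      · have hz1 := nb_sub hm ht1 hz
        obtain ⟨hz2, hz3⟩ := mem_nb.1 hz
        rw [hsecond t ht z hz1 (fun h' => h (mem_nb.2 ⟨hz2, h'⟩)) hz3]
        exact mem_insert_self _ _
    have h2 : (nb (1 - t)).filter (fun z => z ∈ nb (1 : F)) ⊆ (nb (1 : F)).erase (1 - t) := by
      intro z hz
      obtain ⟨hz1, hz2⟩ := mem_filter.1 hz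
      refine mem_erase.2 ⟨fun h => ?_, hz2⟩
      have := (mem_nb.1 hz1).2
      rw [h, sub_self] at this
      exact this.1 rfl
    have h3 := (card_le_card h1).trans (card_insert_le _ _)
    have h4 := card_nb_sq hm ht2
    have h5 : (nb (1 - t)).filter (fun z => z ∈ nb (1 : F)) = (nb (1 : F)).erase (1 - t) := by
      apply eq_of_subset_of_card_le h2
      rw [card_erase_of_mem (hcom t ht)]
      omega
    intro t' ht' hne
    have h6 : t' ∈ (nb (1 : F)).erase (1 - t) := mem_erase.2 ⟨hne, ht'⟩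
    rw [← h5] at h6
    exact (mem_nb.1 (mem_filter.1 h6).1).2
  have hpos : 0 < (nb (1 : F)).card := by omega
  obtain ⟨t, ht⟩ := card_pos.1 hpos
  have hpos2 : 0 < ((nb (1 : F)).erase (1 - t)).card := by
    rw [card_erase_of_mem (hcom t ht)]
    omega
  obtain ⟨t', ht'⟩ := card_pos.1 hpos2
  obtain ⟨h1, h2⟩ := mem_erase.1 ht'
  have h3 := hall t ht t' h2 h1
  have h4 := hall (1 - t) (hcom t ht) (1 - t') (hcom t' h2) (fun h => h1 (by linear_combination -h))
  have e1 : (1 : F) - (1 - t) - (1 - t') = -(1 - t - t') := by ring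
  rw [e1, sq_neg hm h3.1] at h4
  exact h4 h3

end Pool.Agent.Helper52.PL
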