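import Pool.Agent.Helper52.PL.Count

/-!
# Unit vectors of the three-dimensional space with the form `x^2 + y^2 + z^2`

Points are unit vectors up to sign. `Lift r`: `r` is the lift of an injective map on points which respects orthogonality. `Fx r v`: the point `v` is
fixed. `Lift.closure`: a point which is orthogonal to two different fixed points is fixed. `fixed_all`: if `-1` is not a square, all points of height
`0` and all points of one height `≠ 0, ±1` are fixed then all points are fixed.
-/

set_option autoImplicit false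

namespace Pool.Agent.Helper52.PL

variable {F : Type*} [Field F]

/-- the bilinear form -/
def dot (v w : F × F × F) : F := v.1 * w.1 + v.2.1 * w.2.1 + v.2.2 * w.2.2

/-- the vector product -/
def cross (v w : F × F × F) : F × F × F :=
  (v.2.1 * w.2.2 - v.2.2 * w.2.1, v.2.2 * w.1 - v.1 * w.2.2, v.1 * w.2.1 - v.2.1 * w.1)

theorem dot_comm (v w : F × F × F) : dot v w = dot w v := by
  simp only [dot]
  ring

theorem dot_neg (v w : F × F × F) : dot v (-w) = -dot v w := by
  simp only [dot, Prod.fst_neg, Prod.snd_neg]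
  ring

theorem neg_dot (v w : F × F × F) : dot (-v) w = -dot v w := by
  simp only [dot, Prod.fst_neg, Prod.snd_neg]
  ring

theorem dot_smul (c : F) (v w : F × F × F) : dot v (c • w) = c * dot v w := by
  simp only [dot, Prod.smul_fst, Prod.smul_snd, smul_eq_mul]
  ring

theorem smul_dot (c : F) (v w : F × F × F) : dot (c • v) w = c * dot v w := by
  simp only [dot, Prod.smul_fst, Prod.smul_snd, smul_eq_mul]
  ring

theorem dot_add (u v w : F × F × F) : dot u (v + w) = dot u v + dot u w := by
  simp only [dot, Prod.fst_add, Prod.snd_add]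
  ring

theorem add_dot (u v w : F × F × F) : dot (u + v) w = dot u w + dot v w := by
  simp only [dot, Prod.fst_add, Prod.snd_add]
  ring

/-- a vector orthogonal to two independent vectors of `b^⊥` is a multiple of `b` -/
theorem par {b v w u : F × F × F} (hb : dot b b = 1) (hv : dot b v = 0) (hw : dot b w = 0) (hn : cross v w ≠ 0)
    (hu : dot u v = 0) (hu' : dot u w = 0) : u = dot b u • b := by
  obtain ⟨b1, b2, b3⟩ := b
  obtain ⟨v1, v2, v3⟩ := v
  obtain ⟨w1, w2, w3⟩ := w
  obtain ⟨u1, u2, u3⟩ := u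
  simp only [dot, cross] at hb hv hw hu hu' hn ⊢
  set n1 := v2 * w3 - v3 * w2 with hn1
  set n2 := v3 * w1 - v1 * w3 with hn2
  set n3 := v1 * w2 - v2 * w1 with hn3
  set β := b1 * n1 + b2 * n2 + b3 * n3 with hβ
  have e1 : n1 = β * b1 := by
    rw [hβ, hn1, hn2, hn3]
    linear_combination (-(v2 * w3 - v3 * w2)) * hb + (b2 * w3 - b3 * w2) * hv + (-b2 * v3 + b3 * v2) * hw
  have e2 : n2 = β * b2 := by
    rw [hβ, hn1, hn2, hn3]
    linear_combination (-(v3 * w1 - v1 * w3)) * hb + (b3 * w1 - b1 * w3) * hv + (-b3 * v1 + b1 * v3) * hw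
  have e3 : n3 = β * b3 := by
    rw [hβ, hn1, hn2, hn3]
    linear_combination (-(v1 * w2 - v2 * w1)) * hb + (b1 * w2 - b2 * w1) * hv + (-b1 * v2 + b2 * v1) * hw
  have hβ0 : β ≠ 0 := by
    intro h
    apply hn
    rw [e1, e2, e3, h]
    simp
  have f1 : u2 * b3 - u3 * b2 = 0 := by
    apply mul_left_cancel₀ hβ0
    have : β * (u2 * b3 - u3 * b2) = u2 * n3 - u3 * n2 := by
      rw [e2, e3]
      ring
    rw [this, hn2, hn3, mul_zero]
    linear_combination v1 * hu' - w1 * hu
  have f2 : u3 * b1 - u1 * b3 = 0 := by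
    apply mul_left_cancel₀ hβ0
    have : β * (u3 * b1 - u1 * b3) = u3 * n1 - u1 * n3 := by
      rw [e1, e3]
      ring
    rw [this, hn1, hn3, mul_zero]
    linear_combination v2 * hu' - w2 * hu
  have f3 : u1 * b2 - u2 * b1 = 0 := by
    apply mul_left_cancel₀ hβ0
    have : β * (u1 * b2 - u2 * b1) = u1 * n2 - u2 * n1 := by
      rw [e1, e2]
      ring
    rw [this, hn1, hn2, mul_zero]
    linear_combination v3 * hu' - w3 * hu
  refine Prod.ext ?_ (Prod.ext ?_ ?_)
  · simp only [Prod.smul_mk, smul_eq_mul]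
    linear_combination (-u1) * hb + b2 * f3 - b3 * f2
  · simp only [Prod.smul_mk, smul_eq_mul]
    linear_combination (-u2) * hb + b3 * f1 - b1 * f3
  · simp only [Prod.smul_mk, smul_eq_mul]
    linear_combination (-u3) * hb + b1 * f2 - b2 * f1

/-- different points are independent -/
theorem cross_ne {v w : F × F × F} (hv : dot v v = 1) (hw : dot w w = 1) (h1 : w ≠ v) (h2 : w ≠ -v) : cross v w ≠ 0 := by
  intro hn
  have hw' : w = dot v w • v := by
    obtain ⟨v1, v2, v3⟩ := v
    obtain ⟨w1, w2, w3⟩ := w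
    simp only [dot, cross, Prod.mk_eq_zero] at hv hn ⊢
    obtain ⟨f1, f2, f3⟩ := hn
    refine Prod.ext ?_ (Prod.ext ?_ ?_)
    · simp only [Prod.smul_mk, smul_eq_mul]
      linear_combination (-w1) * hv - v2 * f3 + v3 * f2
    · simp only [Prod.smul_mk, smul_eq_mul]
      linear_combination (-w2) * hv - v3 * f1 + v1 * f3
    · simp only [Prod.smul_mk, smul_eq_mul]
      linear_combination (-w3) * hv - v1 * f2 + v2 * f1
  have h3 : dot v w * dot v w = 1 := by
    have := hw
    rw [hw', dot_smul, smul_dot, hv] at this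
    linear_combination this
  have h4 : (dot v w - 1) * (dot v w + 1) = 0 := by linear_combination h3
  rcases mul_eq_zero.1 h4 with h | h
  · apply h1
    rw [hw', sub_eq_zero.1 h, one_smul]
  · apply h2
    rw [hw', eq_neg_of_add_eq_zero_left h, neg_smul, one_smul]

/-- lifts of injective maps on points which respect orthogonality -/
structure Lift (r : F × F × F → F × F × F) : Prop where
  unit : ∀ v, dot v v = 1 → dot (r v) (r v) = 1
  ort : ∀ v w, dot v v = 1 → dot w w = 1 → (dot (r v) (r w) = 0 ↔ dot v w = 0)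
  inj : ∀ v w, dot v v = 1 → dot w w = 1 → (r w = r v ∨ r w = -r v) → (w = v ∨ w = -v)
  neg : ∀ v, dot v v = 1 → r (-v) = r v ∨ r (-v) = -r v

/-- the point `v` is fixed -/
def Fx (r : F × F × F → F × F × F) (v : F × F × F) : Prop := r v = v ∨ r v = -v

theorem Lift.fx_neg {r : F × F × F → F × F × F} (h : Lift r) {v : F × F × F} (hv : dot v v = 1) (hf : Fx r v) :
    Fx r (-v) := by
  unfold Fx at hf ⊢
  rw [neg_neg]
  rcases h.neg v hv with h1 | h1 <;> rcases hf with h2 | h2 <;> rw [h1, h2]
  · exact Or.inr rfl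
  · exact Or.inl rfl
  · exact Or.inl rfl
  · rw [neg_neg]
    exact Or.inr rfl

/-- orthogonality to a fixed point -/
theorem Lift.ort_fx {r : F × F × F → F × F × F} (h : Lift r) {v w : F × F × F} (hv : dot v v = 1) (hw : dot w w = 1)
    (hf : Fx r w) (h0 : dot v w = 0) : dot (r v) w = 0 := by
  have h1 := (h.ort v w hv hw).2 h0
  rcases hf with h2 | h2
  · rwa [h2] at h1
  · rw [h2, dot_neg, neg_eq_zero] at h1
    exact h1

/-- A point orthogonal to two different fixed points is fixed. -/
theorem Lift.closure {r : F × F × F → F × F × F} (h : Lift r) {b v w : F × F × F} (hb : dot b b = 1) (hv : dot v v = 1)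
    (hw : dot w w = 1) (hbv : dot b v = 0) (hbw : dot b w = 0) (h1 : w ≠ v) (h2 : w ≠ -v) (hfv : Fx r v)
    (hfw : Fx r w) : Fx r b := by
  have hp := par hb hbv hbw (cross_ne hv hw h1 h2) (h.ort_fx hb hv hfv hbv) (h.ort_fx hb hw hfw hbw)
  have h3 := h.unit b hb
  rw [hp, dot_smul, smul_dot, hb] at h3
  have h4 : (dot b (r b) - 1) * (dot b (r b) + 1) = 0 := by linear_combination h3
  rcases mul_eq_zero.1 h4 with h | h
  · left
    rw [hp, sub_eq_zero.1 h, one_smul]
  · right
    rw [hp, eq_neg_of_add_eq_zero_left h, neg_smul, one_smul]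

/-- closure along heights -/
theorem Lift.height {r : F × F × F → F × F × F} (h : Lift r) (h2 : (2 : F) ≠ 0) {b : F × F × F} (hb : dot b b = 1) {x y : F}
    (hx : x ≠ 0) (hy : y ≠ 0) (hk : b.1 * b.1 ≠ 1) (hxy : b.1 * b.1 + x * x + y * y = 1)
    (hf : ∀ v, dot v v = 1 → v.1 = x → Fx r v) : Fx r b := by
  obtain ⟨g, b2, b3⟩ := b
  simp only [dot] at hb hk hxy
  set k : F := 1 - g * g with hk'
  have hk0 : k ≠ 0 := sub_ne_zero.2 (Ne.symm hk)
  have hk1 : b2 * b2 + b3 * b3 = k := by
    rw [hk']
    linear_combination hb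
  have hk2 : x * x + y * y = k := by
    rw [hk']
    linear_combination hxy
  have hgk : g * g = 1 - k := by rw [hk']; ring
  have hunit : ∀ z : F, z * z = y * y → dot (x, (-(x * g * b2) - z * b3) / k, (-(x * g * b3) + z * b2) / k)
      (x, (-(x * g * b2) - z * b3) / k, (-(x * g * b3) + z * b2) / k) = 1 := by
    intro z hz
    simp only [dot]
    have e1 : (-(x * g * b2) - z * b3) * (-(x * g * b2) - z * b3) + (-(x * g * b3) + z * b2) * (-(x * g * b3) + z * b2) =
        k * (k - k * (x * x)) := by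
      have : (-(x * g * b2) - z * b3) * (-(x * g * b2) - z * b3) + (-(x * g * b3) + z * b2) * (-(x * g * b3) + z * b2) =
        (x * x * (g * g) + z * z) * (b2 * b2 + b3 * b3) := by ring
      rw [this, hk1, hgk, hz]
      linear_combination k * hk2
    field_simp
    linear_combination e1
  have hort : ∀ z : F, dot (g, b2, b3) (x, (-(x * g * b2) - z * b3) / k, (-(x * g * b3) + z * b2) / k) = 0 := by
    intro z
    simp only [dot]
    field_simp
    linear_combination (-(x * g)) * hk1
  have hyy : -y * -y = y * y := by ring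
  refine h.closure (v := (x, (-(x * g * b2) - y * b3) / k, (-(x * g * b3) + y * b2) / k))
    (w := (x, (-(x * g * b2) - (-y) * b3) / k, (-(x * g * b3) + (-y) * b2) / k)) ?_ (hunit y rfl) (hunit (-y) hyy)
    (hort y) (hort (-y)) ?_ ?_ (hf _ (hunit y rfl) rfl) (hf _ (hunit (-y) hyy) rfl)
  · simp only [dot]
    exact hb
  · intro heq
    simp only [Prod.mk.injEq, true_and] at heq
    obtain ⟨e1, e2⟩ := heq
    have f1 : b3 = 0 := by
      have : 2 * y * b3 = 0 := by
        have e3 := (div_left_inj' hk0).1 e1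
        linear_combination e3
      rcases mul_eq_zero.1 this with h | h
      · exact absurd h (mul_ne_zero h2 hy)
      · exact h
    have f2 : b2 = 0 := by
      have : 2 * y * b2 = 0 := by
        have e3 := (div_left_inj' hk0).1 e2
        linear_combination -e3
      rcases mul_eq_zero.1 this with h | h
      · exact absurd h (mul_ne_zero h2 hy)
      · exact h
    rw [f1, f2] at hk1
    apply hk0
    rw [← hk1]
    ring
  · intro heq
    have e1 := congrArg Prod.fst heq
    simp only [Prod.fst_neg] at e1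
    have : 2 * x = 0 := by linear_combination e1
    rcases mul_eq_zero.1 this with h | h
    · exact h2 h
    · exact hx h

/-- the first basis vector is fixed if its orthogonal space is -/
theorem Lift.fx_e1 {r : F × F × F → F × F × F} (h : Lift r) (h0 : ∀ v, dot v v = 1 → v.1 = 0 → Fx r v) :
    Fx r (1, 0, 0) := by
  refine h.closure (v := (0, 1, 0)) (w := (0, 0, 1)) ?_ ?_ ?_ ?_ ?_ ?_ ?_ (h0 _ ?_ rfl) (h0 _ ?_ rfl) <;>
    simp [dot, Prod.ext_iff]

section finite

variable [Fintype F] [DecidableEq F]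

omit [Fintype F] [DecidableEq F] in
theorem eq_e1 (hm : ¬IsSquare (-1 : F)) {v : F × F × F} (hv : dot v v = 1) (h1 : v.1 * v.1 = 1) :
    v = (1, 0, 0) ∨ v = -(1, 0, 0) := by
  obtain ⟨g, b2, b3⟩ := v
  simp only [dot] at hv h1
  have h3 : b3 = 0 := by
    by_contra h3
    apply hm
    refine ⟨b2 / b3, ?_⟩
    field_simp
    linear_combination h1 - hv
  have h2 : b2 = 0 := by
    have : b2 * b2 = 0 := by
      rw [h3] at hv
      linear_combination hv - h1
    exact mul_self_eq_zero.1 this
  have h4 : (g - 1) * (g + 1) = 0 := by linear_combination h1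
  rcases mul_eq_zero.1 h4 with h | h
  · left
    rw [h2, h3, sub_eq_zero.1 h]
  · right
    rw [h2, h3, eq_neg_of_add_eq_zero_left h]
    simp

/-- rigidity from one height -/
theorem Lift.fixed_all {r : F × F × F → F × F × F} (h : Lift r) (hm : ¬IsSquare (-1 : F)) (hq : 3 < Fintype.card F)
    (h0 : ∀ v, dot v v = 1 → v.1 = 0 → Fx r v) {s0 : F} (hs0 : s0 ∈ sqs F)
    (hs : ∀ v, dot v v = 1 → v.1 * v.1 = s0 → Fx r v) : ∀ v, dot v v = 1 → Fx r v := by
  have key := conn hm hq (P := fun s => ∀ v, dot v v = 1 → v.1 * v.1 = s → Fx r v) ⟨s0, hs0, hs⟩ (by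
    intro s hs hP t ht hst v hv hvt
    obtain ⟨x, hx, hxs⟩ := (mem_sqs.1 hs).1.exists_root
    obtain ⟨y, hy, hys⟩ := hst.exists_root
    refine h.height (two_ne hm) hv hx hy ?_ ?_ (fun w hw hwx => hP w hw (by rw [hwx, hxs]))
    · rw [hvt]
      exact (mem_sqs.1 ht).2
    · rw [hvt, hxs, hys]
      ring)
  intro v hv
  by_cases hv0 : v.1 = 0
  · exact h0 v hv hv0
  · by_cases hv1 : v.1 * v.1 = 1
    · rcases eq_e1 hm hv hv1 with h1 | h1
      · rw [h1]
        exact h.fx_e1 h0
      · rw [h1]
        exact h.fx_neg (by simp [dot]) (h.fx_e1 h0)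
    · exact key (v.1 * v.1) (mem_sqs.2 ⟨sq_self hv0, hv1⟩) v hv rfl

end finite

end Pool.Agent.Helper52.PL
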